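import Pool.Agent.Lib.MP_9e467c_al.Defs
import Pool.Agent.Lib.MP_9e467c_al.Final

set_option autoImplicit false

namespace Pool.Agent.Results.MP_9e467c_al.BranchSubgroups

open Equiv Subgroup Pool.Agent.Lib.MP_9e467c_al

/-- **Q1 has a negative answer.** For every finite alphabet `X` with at least five letters there
are a finitely generated branch group `G` on the rooted tree of words over `X` and a branch
subgroup `H` of `G`, also finitely generated, of infinite index in `G`, such that every maximal
subgroup of `G` containing `H` has finite index in `G`. Moreover `G` does have maximal subgroups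
of infinite index. Here `M ⋖ G` says that `M` is a maximal subgroup of `G`, and
`Subgroup.relIndex M G` is the index `[G : M]`, with the value `0` encoding an infinite index. -/
theorem result (X : Type) [Finite X] (hX : 5 ≤ Nat.card X) :
    ∃ G H : Subgroup (Equiv.Perm (List X)),
      G.FG ∧ IsBranch G ∧
      (∃ M, M ⋖ G ∧ M.relIndex G = 0) ∧
      H ≤ G ∧ H.FG ∧ IsBranch H ∧ H.relIndex G = 0 ∧
      ∀ M, M ⋖ G → H ≤ M → M.relIndex G ≠ 0 := by
  classical
  have : Fintype X := Fintype.ofFinite X
  have hcard : 5 ≤ Fintype.card X := by rwa [← Nat.card_eq_fintype_card]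
  obtain ⟨f⟩ : Nonempty (Fin 5 ↪ X) := by
    rw [Function.Embedding.nonempty_iff_card_le]
    simpa using hcard
  let o := f 0
  let p := f 1
  let q := f 2
  let r := f 3
  have hop : p ≠ o := fun h => absurd (f.injective h) (by decide)
  have hoq : q ≠ o := fun h => absurd (f.injective h) (by decide)
  have hpq : p ≠ q := fun h => absurd (f.injective h) (by decide)
  have hpr : p ≠ r := fun h => absurd (f.injective h) (by decide)
  have hqr : q ≠ r := fun h => absurd (f.injective h) (by decide)
  have hro : r ≠ o := fun h => absurd (f.injective h) (by decide)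
  let τ : Perm X := swap p q * swap p r
  have hτ3 : τ.IsThreeCycle := Perm.isThreeCycle_swap_mul_swap_same hpq hpr hqr
  have hτA : τ ∈ alternatingGroup X := hτ3.mem_alternatingGroup
  have hτo : τ o = o := by
    show swap p q (swap p r o) = o
    rw [swap_apply_of_ne_of_ne hop.symm hro.symm, swap_apply_of_ne_of_ne hop.symm hoq.symm]
  have hτp : τ p ≠ p := by
    show swap p q (swap p r p) ≠ p
    rw [swap_apply_left, swap_apply_of_ne_of_ne hpr.symm hqr.symm]
    exact hpr.symm
  let _ : CommGroup (Subgroup.zpowers τ) :=
    { (inferInstance : Group (Subgroup.zpowers τ)) with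
      mul_comm := by
        rintro ⟨_, m, rfl⟩ ⟨_, n, rfl⟩
        exact Subtype.ext (zpow_mul_comm τ m n) }
  have hC : Nat.card (Subgroup.zpowers τ) = 3 := by
    rw [Nat.card_zpowers, hτ3.orderOf]
  have : Fact (Nat.Prime 3) := ⟨Nat.prime_three⟩
  have htr : ∀ x y : X, ∃ a ∈ alternatingGroup X, a x = y := by
    intro x y
    by_cases hxy : x = y
    · exact ⟨1, one_mem _, hxy⟩
    · have h1 : ∃ z : X, z ≠ x ∧ z ≠ y := by
        by_contra hcon
        push Not at hcon
        have h2 : (Finset.univ : Finset X) ⊆ {x, y} := by
          intro z _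
          by_cases hzx : z = x
          · simp [hzx]
          · simp [hcon z hzx]
        have h3 := Finset.card_le_card h2
        have h4 : ({x, y} : Finset X).card ≤ 2 := Finset.card_le_two
        rw [Finset.card_univ] at h3
        omega
      obtain ⟨z, hzx, hzy⟩ := h1
      refine ⟨swap x z * swap x y, (Perm.isThreeCycle_swap_mul_swap_same hzx.symm hxy
        hzy).mem_alternatingGroup, ?_⟩
      show swap x z (swap x y x) = y
      rw [swap_apply_left, swap_apply_of_ne_of_ne (Ne.symm hxy) hzy.symm]
  exact main_aux (alternatingGroup X) (Subgroup.zpowers τ).subtype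
    (commutator_alternatingGroup_eq_top hX) ⟨τ, hτA, fun h => hτp (by rw [h]; rfl)⟩ htr
    hop hoq hpq
    (by
      rintro ⟨_, m, rfl⟩
      exact (alternatingGroup X).zpow_mem hτA m)
    Subtype.val_injective hC hτA hτo hτp

end Pool.Agent.Results.MP_9e467c_al.BranchSubgroups
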